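import Mathlib
import Pool.Agent.Helper35.MS.StGB

/-!
# Project MS (MP_925021_gt), module GPA: a path of immersions
-/

set_option autoImplicit false

namespace Helper32.MS

open Helper35.MS Helper35.PI Helper35.PI2 Helper32.CL
open scoped ContDiff Manifold Topology ENNReal BigOperators
open MeasureTheory Set Filter

/-- the first coordinates -/
private noncomputable def j1 (a b : ℕ) : EE a →ₗᵢ[ℝ] EE (a + b) where
  toFun x := WithLp.toLp 2 (fun i => Fin.addCases (motive := fun _ => ℝ) (fun j => x j)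
    (fun _ => 0) i)
  map_add' x y := by
    ext i
    refine Fin.addCases (fun j => ?_) (fun j => ?_) i <;> simp
  map_smul' c x := by
    ext i
    refine Fin.addCases (fun j => ?_) (fun j => ?_) i <;> simp
  norm_map' x := by
    rw [EuclideanSpace.norm_eq, EuclideanSpace.norm_eq]
    congr 1
    simp [Fin.sum_univ_add]

/-- the last coordinates -/
private noncomputable def j2 (a b : ℕ) : EE b →ₗᵢ[ℝ] EE (a + b) where
  toFun x := WithLp.toLp 2 (fun i => Fin.addCases (motive := fun _ => ℝ) (fun _ => 0)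
    (fun j => x j) i)
  map_add' x y := by
    ext i
    refine Fin.addCases (fun j => ?_) (fun j => ?_) i <;> simp
  map_smul' c x := by
    ext i
    refine Fin.addCases (fun j => ?_) (fun j => ?_) i <;> simp
  norm_map' x := by
    rw [EuclideanSpace.norm_eq, EuclideanSpace.norm_eq]
    congr 1
    simp [Fin.sum_univ_add]

private theorem j1_left {a b : ℕ} (x : EE a) (j : Fin a) : (j1 a b x) (Fin.castAdd b j) = x j := by
  simp [j1]

private theorem j1_right {a b : ℕ} (x : EE a) (j : Fin b) : (j1 a b x) (Fin.natAdd a j) = 0 := by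
  simp [j1]

private theorem j2_left {a b : ℕ} (x : EE b) (j : Fin a) : (j2 a b x) (Fin.castAdd b j) = 0 := by
  simp [j2]

private theorem j2_right {a b : ℕ} (x : EE b) (j : Fin b) :
    (j2 a b x) (Fin.natAdd a j) = x j := by
  simp [j2]

private theorem split_zero {a b : ℕ} {c s : ℝ} {x : EE a} {y : EE b}
    (h : c • j1 a b x + s • j2 a b y = 0) : c • x = 0 ∧ s • y = 0 := by
  constructor
  · ext j
    have h1 := congrArg (fun v : EE (a + b) => v (Fin.castAdd b j)) h
    simpa [j1_left, j2_left] using h1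
  · ext j
    have h1 := congrArg (fun v : EE (a + b) => v (Fin.natAdd a j)) h
    simpa [j1_right, j2_right] using h1

/-- one time of a smooth family -/
private theorem slice {n N : ℕ} {M : Type} [TopologicalSpace M] [ChartedSpace (EE n) M]
    {J : Set ℝ} {F : M → ℝ → EE N} (h : IsImmJ (n := n) J F) {t : ℝ} (ht : t ∈ J) :
    ContMDiff (𝓡 n) 𝓘(ℝ, EE N) ∞ (fun q => F q t) := by
  rw [← contMDiffOn_univ]
  have h1 : ContMDiffOn (𝓡 n) ((𝓡 n).prod 𝓘(ℝ, ℝ)) ∞ (fun q : M => (q, t)) univ :=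
    (contMDiff_id.prodMk contMDiff_const).contMDiffOn
  exact h.smooth.comp h1 (fun q _ => ⟨mem_univ _, ht⟩)

private theorem loc_diff {n N : ℕ} {M : Type} [TopologicalSpace M] [ChartedSpace (EE n) M]
    [IsManifold (𝓡 n) ∞ M] {f : M → EE N} (h : ContMDiff (𝓡 n) 𝓘(ℝ, EE N) ∞ f) (p : M) :
    DifferentiableAt ℝ (fun y => f ((chartAt (EE n) p).symm y)) (chartAt (EE n) p p) := by
  have h1 : ContMDiffOn (𝓡 n) (𝓡 n) ∞ (chartAt (EE n) p).symm (chartAt (EE n) p).target :=
    contMDiffOn_chart_symm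
  have h2 : ContMDiffOn (𝓡 n) 𝓘(ℝ, EE N) ∞ (fun y => f ((chartAt (EE n) p).symm y))
      (chartAt (EE n) p).target := h.comp_contMDiffOn h1
  have h3 := contMDiffOn_iff_contDiffOn.mp h2
  have h4 := h3.contDiffAt ((chartAt (EE n) p).open_target.mem_nhds (mem_chart_target _ p))
  exact h4.differentiableAt (by simp)

/-- GPA. A path of immersions -/
theorem hGPA : StGPA := by
  intro n N M _ _ _ J F Φ t ht hF hΦ
  have hFs := slice hF ht
  have hΦs := slice hΦ (mem_univ (0 : ℝ))
  set G : M → ℝ → EE (N + 3) := fun q s => Real.cos s • j1 N 3 (F q t) + Real.sin s • j2 N 3 (Φ q 0)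
    with hG
  refine ⟨G, j1 N 3, j2 N 3, ⟨isOpen_univ, ?_, ?_⟩, ?_, ?_⟩
  · rw [univ_prod_univ, contMDiffOn_univ]
    have a1 : ContMDiff ((𝓡 n).prod 𝓘(ℝ, ℝ)) 𝓘(ℝ, EE N) ∞ (fun z : M × ℝ => F z.1 t) :=
      hFs.comp contMDiff_fst
    have a2 : ContMDiff ((𝓡 n).prod 𝓘(ℝ, ℝ)) 𝓘(ℝ, EE 3) ∞ (fun z : M × ℝ => Φ z.1 0) :=
      hΦs.comp contMDiff_fst
    have b1 : ContMDiff ((𝓡 n).prod 𝓘(ℝ, ℝ)) 𝓘(ℝ, EE (N + 3)) ∞
        (fun z : M × ℝ => j1 N 3 (F z.1 t)) :=
      ((j1 N 3).toContinuousLinearMap.contDiff (n := ∞)).comp_contMDiff a1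
    have b2 : ContMDiff ((𝓡 n).prod 𝓘(ℝ, ℝ)) 𝓘(ℝ, EE (N + 3)) ∞
        (fun z : M × ℝ => j2 N 3 (Φ z.1 0)) :=
      ((j2 N 3).toContinuousLinearMap.contDiff (n := ∞)).comp_contMDiff a2
    have c1 : ContMDiff ((𝓡 n).prod 𝓘(ℝ, ℝ)) 𝓘(ℝ, ℝ) ∞ (fun z : M × ℝ => Real.cos z.2) :=
      (Real.contDiff_cos (n := ∞)).comp_contMDiff contMDiff_snd
    have c2 : ContMDiff ((𝓡 n).prod 𝓘(ℝ, ℝ)) 𝓘(ℝ, ℝ) ∞ (fun z : M × ℝ => Real.sin z.2) :=
      (Real.contDiff_sin (n := ∞)).comp_contMDiff contMDiff_snd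
    exact (c1.smul b1).add (c2.smul b2)
  · intro p s _
    set f : EE n → EE N := fun y => F ((chartAt (EE n) p).symm y) t with hf
    set φ : EE n → EE 3 := fun y => Φ ((chartAt (EE n) p).symm y) 0 with hφ
    set x : EE n := chartAt (EE n) p p with hx
    have d1 : DifferentiableAt ℝ f x := loc_diff hFs p
    have d2 : DifferentiableAt ℝ φ x := loc_diff hΦs p
    have e1 : HasFDerivAt (fun y => Real.cos s • j1 N 3 (f y) + Real.sin s • j2 N 3 (φ y))
        (Real.cos s • ((j1 N 3).toContinuousLinearMap.comp (fderiv ℝ f x))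
          + Real.sin s • ((j2 N 3).toContinuousLinearMap.comp (fderiv ℝ φ x))) x := by
      have g1 : HasFDerivAt (fun y => j1 N 3 (f y))
          ((j1 N 3).toContinuousLinearMap.comp (fderiv ℝ f x)) x :=
        (j1 N 3).toContinuousLinearMap.hasFDerivAt.comp x d1.hasFDerivAt
      have g2 : HasFDerivAt (fun y => j2 N 3 (φ y))
          ((j2 N 3).toContinuousLinearMap.comp (fderiv ℝ φ x)) x :=
        (j2 N 3).toContinuousLinearMap.hasFDerivAt.comp x d2.hasFDerivAt
      exact (g1.const_smul (Real.cos s)).add (g2.const_smul (Real.sin s))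
    have hdv : ∀ i, dv1 (loc (n := n) G p s) x i
        = Real.cos s • j1 N 3 (dv1 f x i) + Real.sin s • j2 N 3 (dv1 φ x i) := by
      intro i
      have h1 : loc (n := n) G p s
          = fun y => Real.cos s • j1 N 3 (f y) + Real.sin s • j2 N 3 (φ y) := rfl
      rw [dv1, h1, e1.fderiv]
      rfl
    have l1 : LinearIndependent ℝ (fun i : Fin n => dv1 f x i) := hF.imm p t ht
    have l2 : LinearIndependent ℝ (fun i : Fin n => dv1 φ x i) := hΦ.imm p 0 (mem_univ _)
    rw [Fintype.linearIndependent_iff] at l1 l2 ⊢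
    intro g hg
    have hsum : Real.cos s • j1 N 3 (∑ i, g i • dv1 f x i)
        + Real.sin s • j2 N 3 (∑ i, g i • dv1 φ x i) = 0 := by
      rw [← hg]
      simp_rw [hdv]
      rw [map_sum, map_sum, Finset.smul_sum, Finset.smul_sum, ← Finset.sum_add_distrib]
      refine Finset.sum_congr rfl fun i _ => ?_
      rw [map_smul, map_smul, smul_add, smul_comm (Real.cos s), smul_comm (Real.sin s)]
    obtain ⟨h1, h2⟩ := split_zero hsum
    rcases smul_eq_zero.mp h1 with hc | h3
    · rcases smul_eq_zero.mp h2 with hs | h4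
      · exfalso
        have := Real.cos_sq_add_sin_sq s
        rw [hc, hs] at this
        norm_num at this
      · exact l2 g h4
    · exact l1 g h3
  · intro q
    rw [hG]
    simp
  · intro q
    rw [hG]
    simp

end Helper32.MS
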