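import Mathlib
import Pool.Agent.Helper35.MS.StE

/-!
# Project MS (MP_925021_gt), module POI: `|H|` is nearly constant
-/

set_option autoImplicit false

namespace Helper32.MS

open Helper35.MS Helper35.PI Helper35.PI2 Helper32.CL
open scoped ContDiff Manifold Topology ENNReal BigOperators
open MeasureTheory Set Filter

/-- a smooth positive function which is the identity on `[3,∞)` -/
private noncomputable def mm (y : ℝ) : ℝ := 1 + Real.smoothTransition (y - 2) * (y - 1)

private theorem mm_pos (y : ℝ) : 0 < mm y := by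
  unfold mm
  rcases le_or_gt y 2 with h | h
  · rw [Real.smoothTransition.zero_of_nonpos (by linarith)]
    norm_num
  · have h1 := Real.smoothTransition.nonneg (y - 2)
    have : 0 ≤ Real.smoothTransition (y - 2) * (y - 1) := mul_nonneg h1 (by linarith)
    linarith

private theorem mm_eq {y : ℝ} (h : 3 ≤ y) : mm y = y := by
  unfold mm
  rw [Real.smoothTransition.one_of_one_le (by linarith)]
  ring

private theorem mm_smooth : ContDiff ℝ 1 mm := by
  unfold mm
  have h1 : ContDiff ℝ 1 (fun y : ℝ => Real.smoothTransition (y - 2)) :=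
    Real.smoothTransition.contDiff.comp (contDiff_id.sub contDiff_const)
  exact contDiff_const.add (h1.mul (contDiff_id.sub contDiff_const))

/-- the test function -/
private noncomputable def ps (b : ℝ) (y : ℝ) : ℝ := b / (Real.sqrt (mm y) + b)

private theorem ps_smooth {b : ℝ} (hb : 0 < b) : ContDiff ℝ 1 (ps b) := by
  unfold ps
  have h1 : ContDiff ℝ 1 (fun y => Real.sqrt (mm y)) :=
    mm_smooth.sqrt (fun y => (mm_pos y).ne')
  refine contDiff_const.div (h1.add contDiff_const) ?_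
  intro y
  have := Real.sqrt_nonneg (mm y)
  positivity

private theorem ps_eq {b y : ℝ} (h : 3 ≤ y) : ps b y = b / (Real.sqrt y + b) := by
  rw [ps, mm_eq h]

private theorem ps_deriv {b y : ℝ} (hb : 0 < b) (h : 3 < y) :
    |deriv (ps b) y| ≤ 1 / (2 * Real.sqrt y * b) := by
  have hev : ps b =ᶠ[𝓝 y] fun y => b / (Real.sqrt y + b) := by
    filter_upwards [lt_mem_nhds h] with z hz
    exact ps_eq hz.le
  have hy : 0 < y := by linarith
  have hsq : 0 < Real.sqrt y := Real.sqrt_pos.mpr hy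
  have hd : HasDerivAt (fun y => b / (Real.sqrt y + b))
      ((0 * (Real.sqrt y + b) - b * (1 / (2 * Real.sqrt y))) / (Real.sqrt y + b) ^ 2) y := by
    have h1 : HasDerivAt (fun y => Real.sqrt y + b) (1 / (2 * Real.sqrt y)) y :=
      (Real.hasDerivAt_sqrt hy.ne').add_const b
    exact (hasDerivAt_const y b).div h1 (by positivity)
  rw [hev.deriv_eq, hd.deriv]
  rw [zero_mul, zero_sub, neg_div, abs_neg, abs_of_nonneg (by positivity), div_le_div_iff₀
    (by positivity) (by positivity)]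
  have e1 : b * (1 / (2 * Real.sqrt y)) * (2 * Real.sqrt y * b) = b ^ 2 := by
    field_simp
  rw [e1, one_mul]
  exact pow_le_pow_left₀ hb.le (by linarith) 2

/-- the final algebra -/
private theorem fin_aux {A W D K b : ℝ} (hA : 0 < A) (hW : 0 ≤ W) (hD : 0 ≤ D) (hK : 0 ≤ K)
    (hb2 : b ^ 2 = 16 * Real.pi / A) (hKK : K ^ 2 ≤ A * (2 / b ^ 2 * D)) :
    2 * (8 * Real.sqrt (2 * W * A) * K / A) ≤ 5 * Real.sqrt (W * A * D) := by
  have hpi : (3 : ℝ) < Real.pi := Real.pi_gt_three
  have h1 : (2 * (8 * Real.sqrt (2 * W * A) * K / A)) ^ 2 = 512 * W * K ^ 2 / A := by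
    have h2 : Real.sqrt (2 * W * A) ^ 2 = 2 * W * A := Real.sq_sqrt (by positivity)
    have h3 : (2 * (8 * Real.sqrt (2 * W * A) * K / A)) ^ 2
        = 256 * Real.sqrt (2 * W * A) ^ 2 * K ^ 2 / A ^ 2 := by ring
    rw [h3, h2]
    field_simp
    ring
  have h4 : (5 * Real.sqrt (W * A * D)) ^ 2 = 25 * (W * A * D) := by
    rw [mul_pow, Real.sq_sqrt (by positivity)]
    norm_num
  have h5 : A * (2 / b ^ 2 * D) = A ^ 2 * D / (8 * Real.pi) := by
    rw [hb2]
    field_simp
    ring
  rw [h5] at hKK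
  have h6 : (2 * (8 * Real.sqrt (2 * W * A) * K / A)) ^ 2 ≤ (5 * Real.sqrt (W * A * D)) ^ 2 := by
    rw [h1, h4]
    have h7 : 512 * W * K ^ 2 / A ≤ 512 * W * (A ^ 2 * D / (8 * Real.pi)) / A := by
      apply div_le_div_of_nonneg_right _ hA.le
      exact mul_le_mul_of_nonneg_left hKK (by positivity)
    have h8 : 512 * W * (A ^ 2 * D / (8 * Real.pi)) / A = 64 / Real.pi * (W * A * D) := by
      field_simp
      ring
    have h9 : 64 / Real.pi ≤ 25 := by
      rw [div_le_iff₀ (by linarith)]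
      linarith
    calc 512 * W * K ^ 2 / A ≤ 64 / Real.pi * (W * A * D) := by rw [← h8]; exact h7
      _ ≤ 25 * (W * A * D) := mul_le_mul_of_nonneg_right h9 (by positivity)
  exact (pow_le_pow_iff_left₀ (by positivity) (by positivity) two_ne_zero).mp h6

private theorem int3 {M : Type} [MeasurableSpace M] {μ : Measure M} {f g h : M → ℝ}
    (i1 : Integrable f μ) (i2 : Integrable g μ) (i3 : Integrable h μ) :
    ∫ q, (f q - g q + h q) ∂μ = ∫ q, f q ∂μ - ∫ q, g q ∂μ + ∫ q, h q ∂μ := by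
  have i12 : Integrable (fun q => f q - g q) μ := i1.sub i2
  rw [integral_add i12 i3, integral_sub i1 i2]

private theorem int4 {M : Type} [MeasurableSpace M] {μ : Measure M} {f g h l : M → ℝ}
    (i1 : Integrable f μ) (i2 : Integrable g μ) (i3 : Integrable h μ) (i4 : Integrable l μ) :
    ∫ q, (f q - g q - h q + l q) ∂μ
      = ∫ q, f q ∂μ - ∫ q, g q ∂μ - ∫ q, h q ∂μ + ∫ q, l q ∂μ := by
  have i12 : Integrable (fun q => f q - g q) μ := i1.sub i2
  rw [int3 i12 i3 i4, integral_sub i1 i2]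

/-- POI. `|H|` is nearly constant -/
theorem hPOI (hSIA : StSIA) (hPRJ : StPRJ) (hMUJ : StMUJ) (hENE : StENE) (_hI4J : StI4J)
    (hFSJ : StFSJ) : StPOI := by
  intro N M _ _ _ _ _ _ _ _ _ J F c χ δ hset hpin t ht
  set μ := muM 2 F c χ t with hμ
  obtain ⟨s, -, hmu⟩ := hMUJ 2 N M J F c χ hset.toJ
  obtain ⟨hfin, -, hcont⟩ := hmu t ht
  have hint : ∀ g : M → ℝ, Continuous g → Integrable g μ := fun g hg => (hcont g hg).1
  have : IsFiniteMeasure μ := ⟨hfin⟩
  have hAdef : arI F c χ t = μ.real univ := rfl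
  have hWdef : wI F c χ t = ∫ q, YF F q t ∂μ := rfl
  have hDdef : dI F c χ t = ∫ q, g3F F q t ∂μ := rfl
  set A := arI F c χ t with hA
  set W := wI F c χ t with hW
  set D := dI F c χ t with hD
  have hone : ∫ _q : M, (1 : ℝ) ∂μ = A := by
    rw [integral_const, smul_eq_mul, mul_one, hAdef]
  -- the area is positive
  have hA0 : 0 < A := by
    have h1 : 0 ≤ A := by rw [hAdef]; exact measureReal_nonneg
    rcases h1.lt_or_eq with h2 | h2
    · exact h2
    · exfalso
      have h3 := hFSJ 2 N M J F c χ hset.toJ t ht (fun _ => (1 : ℝ)) continuous_const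
        (fun _ => zero_le_one) (by rw [← hμ, hone, ← h2]) (Classical.arbitrary M)
      norm_num at h3
  have hpi : 0 < Real.pi := Real.pi_pos
  set b := Real.sqrt (16 * Real.pi / A) with hb
  have hb0 : 0 < b := Real.sqrt_pos.mpr (by positivity)
  have hb2 : b ^ 2 = 16 * Real.pi / A := Real.sq_sqrt (by positivity)
  -- continuity
  have hYsm : ContMDiff (𝓡 2) 𝓘(ℝ, ℝ) 1 (fun q => YF F q t) := hpin.eY.sm t ht
  have hYc : Continuous (fun q => YF F q t) := hYsm.continuous
  have hgc : Continuous (gdM 2 F t (fun q => YF F q t)) := (hpin.eY.gr t ht).continuous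
  have hg3c : Continuous (fun q => g3F F q t) :=
    (hENE N M J F c χ hset t ht).1
  set w : M → ℝ := fun q => ‖HH (n := 2) F q t‖ with hw
  have hwY : ∀ q, YF F q t = w q ^ 2 := fun q => rfl
  have hw0 : ∀ q, 0 ≤ w q := fun q => norm_nonneg _
  have hwsq : ∀ q, Real.sqrt (YF F q t) = w q := fun q => by
    rw [hwY, Real.sqrt_sq (hw0 q)]
  have hwc : Continuous w := by
    have : w = fun q => Real.sqrt (YF F q t) := funext fun q => (hwsq q).symm
    rw [this]
    exact hYc.sqrt
  have hY4 : ∀ q, 4 ≤ YF F q t := fun q => hpin.y4 q t ht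
  have hw2 : ∀ q, 0 < w q := by
    intro q
    rw [← hwsq]
    exact Real.sqrt_pos.mpr (by linarith [hY4 q])
  -- the functions `h` and `k`
  set h : M → ℝ := fun q => ps b (YF F q t) with hh
  have hval : ∀ q, h q = b / (w q + b) := by
    intro q
    rw [hh]
    simp only
    rw [ps_eq (by linarith [hY4 q]), hwsq]
  have hhsm : ContMDiff (𝓡 2) 𝓘(ℝ, ℝ) 1 h := (ps_smooth hb0).comp_contMDiff hYsm
  set k : M → ℝ := fun q => ‖gdM 2 F t (fun q => YF F q t) q‖ / (2 * w q * b) with hk
  have hkc : Continuous k := by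
    rw [hk]
    refine hgc.norm.div ((continuous_const.mul hwc).mul continuous_const) ?_
    intro q
    have := hw2 q
    positivity
  have hk0 : ∀ q, 0 ≤ k q := by
    intro q
    have := hw2 q
    rw [hk]
    positivity
  have hgd : ∀ q, ‖gdM 2 F t h q‖ ≤ k q := by
    intro q
    have h1 := (hPRJ 2 N M J F hset.mcf.toIsImmJ t ht).2.2.2.1 (fun q => YF F q t) hYsm (ps b)
      (ps_smooth hb0) q
    have h2 : gdM 2 F t h q = deriv (ps b) (YF F q t) • gdM 2 F t (fun q => YF F q t) q := h1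
    have h3 := ps_deriv hb0 (show (3 : ℝ) < YF F q t by linarith [hY4 q])
    rw [hwsq] at h3
    rw [h2, norm_smul, Real.norm_eq_abs, hk]
    calc |deriv (ps b) (YF F q t)| * ‖gdM 2 F t (fun q => YF F q t) q‖
        ≤ 1 / (2 * w q * b) * ‖gdM 2 F t (fun q => YF F q t) q‖ :=
          mul_le_mul_of_nonneg_right h3 (norm_nonneg _)
      _ = ‖gdM 2 F t (fun q => YF F q t) q‖ / (2 * w q * b) := by ring
  have hh0 : ∀ q, 0 ≤ h q := by
    intro q
    have := hw0 q
    rw [hval]
    positivity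
  have hsia := hSIA N M J F c χ hset.toJ t ht h k hhsm hkc hh0 hgd univ MeasurableSet.univ
  rw [← hμ, Measure.restrict_univ, ← hAdef, ← hW] at hsia
  -- Cauchy-Schwarz
  set K := ∫ q, k q ∂μ with hKdef
  have hK0 : 0 ≤ K := integral_nonneg hk0
  have hk2 : ∀ q, k q ^ 2 ≤ 2 / b ^ 2 * g3F F q t := by
    intro q
    have h1 := hpin.gr q t ht
    have hwq := hw2 q
    have e1 : k q ^ 2 = ‖gdM 2 F t (fun q => YF F q t) q‖ ^ 2 / (4 * w q ^ 2 * b ^ 2) := by
      rw [hk]
      simp only
      rw [div_pow]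
      congr 1
      ring
    rw [e1, div_le_iff₀ (by positivity)]
    refine h1.trans (le_of_eq ?_)
    rw [hwY]
    field_simp
    ring
  have hKK : K ^ 2 ≤ A * (2 / b ^ 2 * D) := by
    have i1 := hint k hkc
    have i2 := hint (fun q => k q ^ 2) (hkc.pow 2)
    have i3 := hint (fun q => 2 / b ^ 2 * g3F F q t) (continuous_const.mul hg3c)
    have h1 : ∫ q, k q ^ 2 ∂μ ≤ 2 / b ^ 2 * D := by
      rw [hDdef, ← integral_const_mul]
      exact integral_mono i2 i3 hk2
    have h2 : 0 ≤ ∫ q, (k q - K / A) ^ 2 ∂μ := integral_nonneg fun q => sq_nonneg _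
    have h3 : ∫ q, (k q - K / A) ^ 2 ∂μ = ∫ q, k q ^ 2 ∂μ - 2 * (K / A) * K + (K / A) ^ 2 * A := by
      have e : ∀ q, (k q - K / A) ^ 2 = k q ^ 2 - 2 * (K / A) * k q + (K / A) ^ 2 * 1 := by
        intro q
        ring
      simp_rw [e]
      rw [int3 i2 (i1.const_mul _) ((integrable_const _).const_mul _), integral_const_mul,
        integral_const_mul, hone]
    rw [h3] at h2
    have h4 : ∫ q, k q ^ 2 ∂μ - 2 * (K / A) * K + (K / A) ^ 2 * A
        = ∫ q, k q ^ 2 ∂μ - K ^ 2 / A := by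
      field_simp
      ring
    rw [h4] at h2
    have h5 : K ^ 2 / A ≤ 2 / b ^ 2 * D := by linarith
    rw [div_le_iff₀ hA0] at h5
    linarith
  have hD0 : 0 ≤ D := by
    rw [hDdef]
    exact integral_nonneg fun q => hpin.g0 q t ht
  have hW0 : 0 ≤ W := by
    rw [hWdef]
    exact integral_nonneg fun q => le_trans (by norm_num) (hY4 q)
  have hfinal := fin_aux hA0 hW0 hD0 hK0 hb2 hKK
  -- the identity
  have hhc : Continuous h := hhsm.continuous
  have hid : ∀ q, (w q - b) ^ 2 = (YF F q t - b ^ 2 * 1) - 2 * (h q * YF F q t)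
      + 2 * b ^ 2 * h q := by
    intro q
    rw [hval, hwY]
    have : w q + b ≠ 0 := by
      have := hw0 q
      positivity
    field_simp
    ring
  have hgoal : ∫ q, (w q - b) ^ 2 ∂μ = (W - b ^ 2 * A) - 2 * ∫ q, h q * YF F q t ∂μ
      + 2 * b ^ 2 * ∫ q, h q ∂μ := by
    simp_rw [hid]
    have j1 := hint _ hYc
    have j2 : Integrable (fun _ : M => b ^ 2 * (1 : ℝ)) μ := integrable_const _
    have j3 := (hint (fun q => h q * YF F q t) (hhc.mul hYc)).const_mul 2
    have j4 := (hint h hhc).const_mul (2 * b ^ 2)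
    rw [int4 j1 j2 j3 j4, integral_const_mul, integral_const_mul, integral_const_mul, hone,
      ← hWdef]
  have hbA : b ^ 2 * A = 16 * Real.pi := by
    rw [hb2]
    field_simp
  rw [hgoal]
  set P := ∫ q, h q * YF F q t ∂μ with hP
  set Q := ∫ q, h q ∂μ with hQ
  -- `16π Q ≤ A P + 8 √(2WA) K`
  have h1 : 16 * Real.pi * Q ≤ A * P + 8 * Real.sqrt (2 * W * A) * K := hsia
  have h2 : b ^ 2 * Q ≤ P + 8 * Real.sqrt (2 * W * A) * K / A := by
    have h3 : b ^ 2 * Q = 16 * Real.pi * Q / A := by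
      rw [hb2]
      ring
    rw [h3, div_le_iff₀ hA0]
    have h4 : (P + 8 * Real.sqrt (2 * W * A) * K / A) * A
        = A * P + 8 * Real.sqrt (2 * W * A) * K := by
      field_simp
    rw [h4]
    exact h1
  rw [hbA]
  linarith

end Helper32.MS
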