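import Mathlib
import Pool.Agent.Helper35.MS.StD

/-!
# Project MS (MP_925021_gt), module SJ: linear algebra of an immersed surface in a sphere
-/

set_option autoImplicit false

namespace Helper32.MS

open Helper35.MS Helper35.PI Helper35.PI2 Helper32.CL
open scoped ContDiff Manifold Topology ENNReal BigOperators
open MeasureTheory Set Filter

/-- derivatives of a map into a sphere -/
private theorem sph_jets {n N : ℕ} (f : EE n → EE N) (x : EE n) (c : ℝ) (hf : ContDiffAt ℝ ∞ f x)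
    (hc : ∀ y, ‖f y‖ ^ 2 = c) :
    (∀ i, (inner ℝ (f x) (dv1 f x i) : ℝ) = 0) ∧
    (∀ i j, (inner ℝ (f x) (dv2 f x i j) : ℝ) = - gram f x i j) ∧
    (∀ i j, dv2 f x i j = dv2 f x j i) := by
  have hf2 : ContDiffAt ℝ 2 f x := hf.of_le (WithTop.coe_le_coe.2 le_top)
  have hev : ∀ᶠ y in 𝓝 x, ContDiffAt ℝ 2 f y := hf2.eventually (by simp)
  have D1 : ∀ y, ContDiffAt ℝ 2 f y → ∀ v, (inner ℝ (f y) (fderiv ℝ f y v) : ℝ) = 0 := by
    intro y hy v
    have hd : DifferentiableAt ℝ f y := hy.differentiableAt (by simp)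
    have h1 := fderiv_inner_apply ℝ hd hd v
    have h2 : (fun t => (inner ℝ (f t) (f t) : ℝ)) = fun _ => c := by
      funext t
      rw [real_inner_self_eq_norm_sq, hc]
    rw [h2] at h1
    simp only [fderiv_fun_const, Pi.zero_apply, zero_apply] at h1
    rw [real_inner_comm (f y)] at h1
    linarith
  have hfd : ContDiffAt ℝ 1 (fderiv ℝ f) x := hf2.fderiv_right (by norm_num)
  have hfd' : DifferentiableAt ℝ (fderiv ℝ f) x := hfd.differentiableAt (by simp)
  have hg : ∀ j : Fin n, DifferentiableAt ℝ (fun y => fderiv ℝ f y (ee j)) x := fun j =>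
    hfd'.clm_apply (differentiableAt_const _)
  refine ⟨fun i => D1 x hf2 (ee i), ?_, ?_⟩
  · intro i j
    have h1 := fderiv_inner_apply ℝ (hf2.differentiableAt (by simp)) (hg j) (ee i)
    have h2 : (fun t => (inner ℝ (f t) (fderiv ℝ f t (ee j)) : ℝ)) =ᶠ[𝓝 x] fun _ => (0 : ℝ) := by
      filter_upwards [hev] with y hy
      exact D1 y hy (ee j)
    rw [h2.fderiv_eq] at h1
    simp only [fderiv_fun_const, Pi.zero_apply, zero_apply] at h1
    have h3 : gram f x i j = inner ℝ (fderiv ℝ f x (ee i)) (fderiv ℝ f x (ee j)) := rfl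
    have h4 : dv2 f x i j = fderiv ℝ (fun y => fderiv ℝ f y (ee j)) x (ee i) := rfl
    rw [h3, h4]
    linarith
  · intro i j
    have key : ∀ i j : Fin n, dv2 f x i j = fderiv ℝ (fderiv ℝ f) x (ee i) (ee j) := by
      intro i j
      have h4 : dv2 f x i j = fderiv ℝ (fun y => fderiv ℝ f y (ee j)) x (ee i) := rfl
      rw [h4, fderiv_clm_apply hfd' (differentiableAt_const _)]
      simp
    rw [key, key]
    have hsym : IsSymmSndFDerivAt ℝ f x := hf2.isSymmSndFDerivAt (by simp)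
    exact hsym _ _

/-- the algebraic identities -/
private theorem alg_aux {V : Type*} [NormedAddCommGroup V] [InnerProductSpace ℝ V]
    (B0 B1 C f : V) (r : ℝ) (hr : 0 < r) (hf : ‖f‖ ^ 2 = r ^ 2) (h0 : (inner ℝ f B0 : ℝ) = -1)
    (h1 : (inner ℝ f B1 : ℝ) = -1) (hC : (inner ℝ f C : ℝ) = 0) :
    r ^ 2 * ‖B0 + B1‖ ^ 2 / 4 - 1 = ‖(r / 2) • (B0 + B1) + (1 / r) • f‖ ^ 2 ∧
    r ^ 2 * (2 * (‖B0‖ ^ 2 + ‖C‖ ^ 2 + (‖C‖ ^ 2 + ‖B1‖ ^ 2)) - ‖B0 + B1‖ ^ 2) / 4
      = ‖(r / 2) • (B0 - B1)‖ ^ 2 + ‖r • C‖ ^ 2 ∧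
    (r ^ 2) ^ 2 * (((inner ℝ B0 (B0 + B1) : ℝ) * inner ℝ B0 (B0 + B1)
        + (inner ℝ C (B0 + B1) : ℝ) * inner ℝ C (B0 + B1)
        + ((inner ℝ C (B0 + B1) : ℝ) * inner ℝ C (B0 + B1)
        + (inner ℝ B1 (B0 + B1) : ℝ) * inner ℝ B1 (B0 + B1))) - (‖B0 + B1‖ ^ 2) ^ 2 / 2) / 8
      = (inner ℝ ((r / 2) • (B0 + B1) + (1 / r) • f) ((r / 2) • (B0 - B1)) : ℝ) ^ 2
        + (inner ℝ ((r / 2) • (B0 + B1) + (1 / r) • f) (r • C) : ℝ) ^ 2 := by
  have hr' : r ≠ 0 := hr.ne'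
  have c0 : (inner ℝ B0 f : ℝ) = -1 := by rw [real_inner_comm]; exact h0
  have c1 : (inner ℝ B1 f : ℝ) = -1 := by rw [real_inner_comm]; exact h1
  have s1 : (inner ℝ B1 B0 : ℝ) = inner ℝ B0 B1 := real_inner_comm _ _
  have s2 : (inner ℝ C B0 : ℝ) = inner ℝ B0 C := real_inner_comm _ _
  have s3 : (inner ℝ C B1 : ℝ) = inner ℝ B1 C := real_inner_comm _ _
  rw [← real_inner_self_eq_norm_sq] at hf
  simp only [← real_inner_self_eq_norm_sq, inner_add_left, inner_add_right, inner_sub_left,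
    inner_sub_right, real_inner_smul_left, real_inner_smul_right, h0, h1, hC, c0, c1, s1, s2,
    s3, hf]
  refine ⟨?_, ?_, ?_⟩
  · field_simp
    ring
  · ring
  · field_simp
    ring

/-- SJ. Pointwise linear algebra for an immersed surface in the sphere -/
theorem hSJ (hFR : StFR) (hI3J : StI3J) (hNR : StNR) (hI2J : StI2J) : StSJ := by
  intro N M _ _ _ J F hF t ht r hr hr2 hS q
  set f : EE 2 → EE N := loc (n := 2) F q t with hfdef
  set x : EE 2 := chartAt (EE 2) q q with hxdef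
  have hfx : f x = F q t := by
    rw [hfdef, hxdef, loc]
    simp
  have hnorm : ∀ y, ‖f y‖ ^ 2 = 1 - 4 * t := fun y => hS _
  have hxt : x ∈ (chartAt (EE 2) q).target := mem_chart_target _ q
  have hsm : ContDiffAt ℝ ∞ f x := by
    have h1 := hI2J 2 N M J F hF q
    have h2 : ContDiffAt ℝ ∞ (fun z : EE 2 × ℝ => F ((chartAt (EE 2) q).symm z.1) z.2) (x, t) :=
      h1.contDiffAt (((chartAt (EE 2) q).open_target.prod hF.op).mem_nhds ⟨hxt, ht⟩)
    have h3 : ContDiffAt ℝ ∞ (fun y : EE 2 => (y, t)) x := contDiffAt_id.prodMk contDiffAt_const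
    exact h2.comp x h3
  obtain ⟨j1, j2, j3⟩ := sph_jets f x (1 - 4 * t) hsm hnorm
  have hLI : LI f x := hF.imm q t ht
  obtain ⟨-, -, P, -, -, hP1, -, hPa, hPb, hPc⟩ := hFR 2 N f x hLI
  obtain ⟨-, -, -, hn4, -, -, hn7, -⟩ := hNR 2 N f x hLI
  have hsf : ∀ i j, (inner ℝ (f x) (sff f x i j) : ℝ) = - gram f x i j := by
    intro i j
    have h1 : nrm f x (f x) = f x := hn4 _ j1
    have h2 := hn7 (f x) (dv2 f x i j)
    rw [h1] at h2
    rw [sff, ← h2, j2]
  have hsy : ∀ i j, sff f x i j = sff f x j i := by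
    intro i j
    rw [sff, sff, j3]
  set B : Fin 2 → Fin 2 → EE N := fun a b => ∑ i, ∑ j, (P i a * P j b) • sff f x i j with hB
  have hfB : ∀ a b, (inner ℝ (f x) (B a b) : ℝ) = if a = b then -1 else 0 := by
    intro a b
    have h1 : (inner ℝ (f x) (B a b) : ℝ) = -((P.transpose * gram f x * P) a b) := by
      rw [hB]
      simp only [Fin.sum_univ_two, inner_add_right, real_inner_smul_right, hsf, Matrix.mul_apply,
        Matrix.transpose_apply]
      ring
    rw [h1, hP1, Matrix.one_apply]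
    split_ifs <;> simp
  have hB01 : B 1 0 = B 0 1 := by
    rw [hB]
    simp only [Fin.sum_univ_two]
    rw [hsy 1 0]
    module
  have hH : HH (n := 2) F q t = B 0 0 + B 1 1 := by
    have h1 : HH (n := 2) F q t = mcv f x := rfl
    rw [h1, mcv, hPa, Fin.sum_univ_two]
  have hA : AA (n := 2) F q t = ‖B 0 0‖ ^ 2 + ‖B 0 1‖ ^ 2 + (‖B 0 1‖ ^ 2 + ‖B 1 1‖ ^ 2) := by
    have h1 : AA (n := 2) F q t = nsq f x := rfl
    rw [h1, nsq, hPc (sff f x) (sff f x)]
    have h2 : ∀ a b, (inner ℝ (∑ i, ∑ j, (P i a * P j b) • sff f x i j)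
        (∑ i, ∑ j, (P i a * P j b) • sff f x i j) : ℝ) = ‖B a b‖ ^ 2 := by
      intro a b
      rw [real_inner_self_eq_norm_sq]
    simp only [h2]
    rw [Fin.sum_univ_two, Fin.sum_univ_two, Fin.sum_univ_two, hB01]
  have hmcv : mcv f x = B 0 0 + B 1 1 := hH
  have hZ : ZF (n := 2) F q t =
      (inner ℝ (B 0 0) (B 0 0 + B 1 1) : ℝ) * inner ℝ (B 0 0) (B 0 0 + B 1 1)
        + (inner ℝ (B 0 1) (B 0 0 + B 1 1) : ℝ) * inner ℝ (B 0 1) (B 0 0 + B 1 1)
        + ((inner ℝ (B 0 1) (B 0 0 + B 1 1) : ℝ) * inner ℝ (B 0 1) (B 0 0 + B 1 1)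
        + (inner ℝ (B 1 1) (B 0 0 + B 1 1) : ℝ) * inner ℝ (B 1 1) (B 0 0 + B 1 1)) := by
    have h1 : ZF (n := 2) F q t = zsq f x := rfl
    rw [h1, zsq, hmcv, hPb (fun i j => inner ℝ (sff f x i j) (B 0 0 + B 1 1))
      (fun i j => inner ℝ (sff f x i j) (B 0 0 + B 1 1))]
    have h2 : ∀ a b, ∑ i, ∑ j, P i a * P j b * (inner ℝ (sff f x i j) (B 0 0 + B 1 1) : ℝ)
        = inner ℝ (B a b) (B 0 0 + B 1 1) := by
      intro a b
      have h3 : B a b = ∑ i, ∑ j, (P i a * P j b) • sff f x i j := rfl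
      rw [h3]
      simp only [sum_inner, real_inner_smul_left]
    simp only [h2]
    rw [Fin.sum_univ_two, Fin.sum_univ_two, Fin.sum_univ_two, hB01]
  have hfn : ‖f x‖ ^ 2 = r ^ 2 := by rw [hnorm, hr2]
  have h00 := hfB 0 0
  have h11 := hfB 1 1
  have h01 := hfB 0 1
  simp only [if_true, Fin.zero_eq_one_iff, OfNat.ofNat_ne_one, if_false] at h00 h11 h01
  obtain ⟨e1, e2, e3⟩ := alg_aux (B 0 0) (B 1 1) (B 0 1) (f x) r hr hfn h00 h11 h01
  refine ⟨(r / 2) • (B 0 0 + B 1 1) + (1 / r) • f x, (r / 2) • (B 0 0 - B 1 1), r • B 0 1,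
    ?_, ?_, ?_, ?_⟩
  · rw [xS, hH, ← hr2]
    exact e1
  · rw [sS, hH, hA, ← hr2]
    exact e2
  · rw [vS, hH, hZ, ← hr2]
    exact e3
  · intro θ
    set c := Real.cos (θ / 2) with hc
    set s := Real.sin (θ / 2) with hs
    have hcs : c ^ 2 + s ^ 2 = 1 := by
      rw [hc, hs]
      exact Real.cos_sq_add_sin_sq _
    have hcos : Real.cos θ = c ^ 2 - s ^ 2 := by
      have h := Real.cos_two_mul' (θ / 2)
      rw [mul_div_cancel₀ θ (two_ne_zero)] at h
      exact h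
    have hsin : Real.sin θ = 2 * s * c := by
      have h := Real.sin_two_mul (θ / 2)
      rw [mul_div_cancel₀ θ (two_ne_zero)] at h
      exact h
    refine ⟨fun i => P i 0 * c + P i 1 * s, ?_, ?_⟩
    · have g : ∀ a b, (P.transpose * gram f x * P) a b =
          ∑ i, ∑ j, P i a * P j b * gram f x i j := by
        intro a b
        simp only [Matrix.mul_apply, Matrix.transpose_apply, Fin.sum_univ_two]
        ring
      have g00 := g 0 0
      have g01 := g 0 1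
      have g10 := g 1 0
      have g11 := g 1 1
      rw [hP1] at g00 g01 g10 g11
      simp only [Matrix.one_apply, Fin.sum_univ_two] at g00 g01 g10 g11
      simp only [if_true, Fin.zero_eq_one_iff, OfNat.ofNat_ne_one, if_false,
        Fin.one_eq_zero_iff] at g00 g01 g10 g11
      simp only [Fin.sum_univ_two]
      linear_combination (-c ^ 2) * g00 - c * s * g01 - c * s * g10 - s ^ 2 * g11 + hcs
    · have hsum : ∑ i, ∑ j, ((P i 0 * c + P i 1 * s) * (P j 0 * c + P j 1 * s)) • sff f x i j =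
          (c ^ 2) • B 0 0 + (c * s) • B 0 1 + (c * s) • B 1 0 + (s ^ 2) • B 1 1 := by
        rw [hB]
        simp only [Fin.sum_univ_two]
        module
      rw [hsum, hB01, hfx, hcos, hsin]
      have h1 : (c ^ 2 : ℝ) = 1 / 2 + (c ^ 2 - s ^ 2) / 2 := by linarith
      have h2 : (s ^ 2 : ℝ) = 1 / 2 - (c ^ 2 - s ^ 2) / 2 := by linarith
      have h3 : (c ^ 2) • B 0 0 + (c * s) • B 0 1 + (c * s) • B 0 1 + (s ^ 2) • B 1 1 =
          (1 / 2 + (c ^ 2 - s ^ 2) / 2) • B 0 0 + (2 * s * c) • B 0 1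
            + (1 / 2 - (c ^ 2 - s ^ 2) / 2) • B 1 1 := by
        rw [← h1, ← h2]
        module
      rw [h3]
      module

end Helper32.MS
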